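import Pool.Agent.Helper65.PF.Conv

/-!
# The Pisot substitution conjecture and adjacent transpositions

`inc σ` is the incidence matrix of the substitution `σ`, `iter σ N = σ^N`, `PisotMat M` says that
`M` is unimodular, irreducible and Pisot, and `SemiConjToral σ` says that the subshift of `σ` is
semi-conjugate to a minimal toral translation, all as in the problem file (starting library
`Pool/Agent/H812R2/PI/Defs.lean`). `Swaps n u v` says that the word `v` is obtained from the word
`u` by `n` transpositions of two adjacent letters. The number `lam` is the root `> 1` of the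
characteristic polynomial of the incidence matrix.

Let `σ` be a unimodular irreducible Pisot substitution. The following are equivalent:

(a) the subshift of `σ` is semi-conjugate to a minimal toral translation;
(b) for SOME `N ≥ 1` and all letters `i ≠ j` fewer than `lam ^ N` transpositions of adjacent
    letters change `σ^N(i) σ^N(j)` into `σ^N(j) σ^N(i)`;
(c) for every `ε > 0` and all large `N` at most `ε * lam ^ N` transpositions suffice.

So for every such `σ` the least numbers `t N` of transpositions which suffice for all pairs of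
letters either satisfy `t N ≥ lam ^ N` for all `N ≥ 1`, or `t N = o (lam ^ N)`, and the conjecture
says that the second case always holds.

Proof of (b) ⇒ (a): the number of edges of the broken line of `S(ij)` which are not edges of the
broken line of `S(ji)` is subadditive under transpositions (starting library `Q132/PT`), so it is
`O (K ^ n)` with `K < lam ^ N` for `S = σ^(N n)`. (a) ⇒ (c): by the library the two broken lines have
all but `o (lam ^ N)` edges in common; the words are changed into each other by moving first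
occurrences of letters to the front, with bounded cost for each edge which is not common.
-/

set_option autoImplicit false

namespace Pool.Agent.Results.MP_e732b0_an.AdjacentTranspositions

open Pool.Agent.H812R2.PI Pool.Agent.Helper65.PF

theorem result {m : ℕ} (σ : Fin (m+1) → List (Fin (m+1))) (hM : PisotMat (inc σ)) (lam : ℝ)
    (hlam : 1 < lam) (hroot : ((inc σ).map (Int.cast : ℤ → ℂ)).charpoly.IsRoot (lam : ℂ)) :
    (SemiConjToral σ ↔ ∃ N : ℕ, 1 ≤ N ∧ ∀ i j, i ≠ j → ∃ n : ℕ, (n : ℝ) < lam ^ N ∧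
      Swaps n (iter σ N i ++ iter σ N j) (iter σ N j ++ iter σ N i)) ∧
    (SemiConjToral σ ↔ ∀ ε : ℝ, 0 < ε → ∃ N₀ : ℕ, ∀ N ≥ N₀, ∀ i j, ∃ n : ℕ,
      (n : ℝ) ≤ ε * lam ^ N ∧
      Swaps n (iter σ N i ++ iter σ N j) (iter σ N j ++ iter σ N i)) := by
  have h1 : SemiConjToral σ → ∀ ε : ℝ, 0 < ε → ∃ N₀ : ℕ, ∀ N ≥ N₀, ∀ i j, ∃ n : ℕ,
      (n : ℝ) ≤ ε * lam ^ N ∧
      Swaps n (iter σ N i ++ iter σ N j) (iter σ N j ++ iter σ N i) :=
    fun hS ε hε => swaps_of_semi σ hM lam hlam hroot hS ε hε
  have h2 : (∀ ε : ℝ, 0 < ε → ∃ N₀ : ℕ, ∀ N ≥ N₀, ∀ i j, ∃ n : ℕ, (n : ℝ) ≤ ε * lam ^ N ∧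
      Swaps n (iter σ N i ++ iter σ N j) (iter σ N j ++ iter σ N i)) →
      ∃ N : ℕ, 1 ≤ N ∧ ∀ i j, i ≠ j → ∃ n : ℕ, (n : ℝ) < lam ^ N ∧
      Swaps n (iter σ N i ++ iter σ N j) (iter σ N j ++ iter σ N i) := by
    intro h
    obtain ⟨N₀, hN₀⟩ := h (1 / 2) (by norm_num)
    refine ⟨max N₀ 1, le_max_right _ _, fun i j _ => ?_⟩
    obtain ⟨n, hn, hs⟩ := hN₀ (max N₀ 1) (le_max_left _ _) i j
    refine ⟨n, lt_of_le_of_lt hn ?_, hs⟩
    have h3 : 0 < lam ^ (max N₀ 1) := pow_pos (by linarith) _
    linarith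
  have h3 : (∃ N : ℕ, 1 ≤ N ∧ ∀ i j, i ≠ j → ∃ n : ℕ, (n : ℝ) < lam ^ N ∧
      Swaps n (iter σ N i ++ iter σ N j) (iter σ N j ++ iter σ N i)) → SemiConjToral σ := by
    rintro ⟨N, hN, h⟩
    exact semi_of_swaps σ hM lam hlam hroot N hN h
  exact ⟨⟨fun h => h2 (h1 h), h3⟩, ⟨h1, fun h => h3 (h2 h)⟩⟩

end Pool.Agent.Results.MP_e732b0_an.AdjacentTranspositions
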