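import Pool.Agent.Helper65.DG.Final

/-!
# The Pisot substitution conjecture for the products along the ternary dendric graph

Consider the graph whose vertices are the pairs `(r, l)` of letters of a three letter alphabet.
From `(r, l)` there is, for each letter `i ≠ r`, a left edge to `(k, l)`, `k` the letter different
from `i` and `r`, labelled by the substitution `r ↦ ir` (`lft i r`), and for each letter `i ≠ l` a
right edge to `(r, k)`, `k` the letter different from `i` and `l`, labelled by `l ↦ li`
(`rgt i l`). In other words the letter which is replaced by a left step is the letter which does
not occur in the preceding left step, and the same for right steps. `Walk r l τ r' l'` says that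
`τ` is the product of the labels of a path from `(r, l)` to `(r', l')`.

Let `π` be a permutation of the letters and `T = τ ∘ π` with a path from `(r, l)`, `r ≠ l`, to
`(π r, π l)`. Such substitutions are, up to conjugation and powers, the Arnoux-Rauzy
substitutions, the products of the Cassaigne-Selmer substitutions `1 ↦ 1, 2 ↦ 13, 3 ↦ 2` and
`1 ↦ 2, 2 ↦ 13, 3 ↦ 3`, and many others; the graph describes the ternary dendric shifts (compare
Gheeraert, Lejeune, Leroy). For the products of the two Cassaigne-Selmer substitutions see
`cs_semi` in `Pool/Agent/Helper65/DG/Mon.lean`.

Theorem: every unimodular irreducible Pisot substitution `σ` on three letters such that some power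
`σ^k` and some such `T` are conjugate up to inner automorphisms of the free group (for example
`σ = T`) satisfies the conclusion of the Pisot substitution conjecture (toral translation model).

`inc σ` is the incidence matrix, `iter σ k = σ^k`, `PisotMat M`: unimodular irreducible Pisot
matrix, `SemiConjToral σ`: conclusion of the conjecture (starting library
`H812R2/PI/Defs.lean`).

Proof. By the hand-in `InverseAutomorphism` it is enough that the inverse automorphism grows more
slowly than `σ`. Its images of letters are computed by a local rule; all of them belong to an
explicit set of words given by windows of length 4. There is an explicit weight of the gaps between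
consecutive letters with values in `ℕ^3` such that a step of the inverse does not increase the
weight more than the transposed incidence matrix of the step of `σ` does (checked on windows), so
the inverse grows at most like `σ`. A long word for which no loss ever occurs is, after at most two
steps, sign coherent (every letter occurs with only one sign), hence its length is governed by the
inverse of the incidence matrix, which for Pisot `σ` grows more slowly. So a positive proportion is
lost after a bounded number of rounds. The finite checks are done by the kernel
(`Pool/Agent/Helper65/DG/Chk*.lean`).
-/

set_option autoImplicit false

namespace Pool.Agent.Results.MP_e732b0_an.DendricGraph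

open Pool.Agent.H812R2.PI Pool.Agent.Helper65.DG

theorem result (σ : Fin 3 → List (Fin 3)) (hM : PisotMat (inc σ))
    (r l : Fin 3) (hrl : r ≠ l) (τ : Fin 3 → List (Fin 3)) (π : Equiv.Perm (Fin 3))
    (hw : Walk r l τ (π r) (π l))
    (k : ℕ) (hk : 1 ≤ k) (α : FreeGroup (Fin 3) ≃* FreeGroup (Fin 3)) (g : FreeGroup (Fin 3))
    (h : ∀ a, α ((iter σ k a).map FreeGroup.of).prod =
      g * FreeGroup.lift (fun b => ((τ (π b)).map FreeGroup.of).prod) (α (FreeGroup.of a)) *
        g⁻¹) :
    SemiConjToral σ := by
  refine semi_walk σ hM k hk r l hrl τ π hw α g fun a => ?_
  rw [Pool.Agent.Helper65.PF.endo_of]
  exact h a

end Pool.Agent.Results.MP_e732b0_an.DendricGraph
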