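import Pool.Agent.Helper65.PF.Main

/-!
# The Pisot substitution conjecture and the growth of the inverse automorphism

Let `σ` be a unimodular irreducible Pisot substitution on `d = m + 2` letters with dominating
eigenvalue `lam`, and suppose that `σ` is invertible: it extends to an automorphism `φ` of the free
group on the letters. Suppose that for some `N ≥ 1` the reduced lengths of the words `φ^(-N)(a)`
satisfy `|φ^(-N)(a)| ^ (d - 2) < lam ^ N` for all letters `a`. Then the subshift of `σ` is
semi-conjugate to a minimal toral translation.

On three letters the hypothesis says that the inverse automorphism grows more slowly than `σ`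
(`lim |φ^(-n)(a)| ^ (1/n) < lam`); this is a property of the outer automorphism and holds for
example for all parageometric `φ` (Handel, Mosher). No condition on the images of the letters is
needed.

`inc σ` is the incidence matrix, `PisotMat M`: unimodular irreducible Pisot matrix,
`SemiConjToral σ`: conclusion of the conjecture (starting library `Pool/Agent/H812R2/PI/Defs.lean`),
`FreeGroup.norm` is the reduced length in Mathlib.

Proof. Let `J` be the matrix of the abelianised Fox derivatives of `σ^n`, with entries in the ring
of Laurent polynomials, that is the matrix of the edges of the broken lines of the words `σ^n(j)`.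
The closed path `[σ^n(i), σ^n(j)]` has the chain `∑ (z_a - 1) (J_ai J_kj - J_aj J_ki)`, so the
number of edges in which the broken lines of `σ^n(ij)` and `σ^n(ji)` differ is bounded by the sum of
the absolute values of the coefficients of the minors of order two of `J`. By Jacobi's theorem on
complementary minors these are minors of order `d - 2` of the inverse matrix, which consists of the
Fox derivatives of `φ^(-n)`, up to the determinant, which is a monomial up to sign; the coefficients
of a Fox derivative of a word have at most its length as sum of absolute values. So the number of
different edges is `o (lam ^ n)`, which implies the conjecture (starting library `Q132/PT`).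
-/

set_option autoImplicit false

namespace Pool.Agent.Results.MP_e732b0_an.InverseAutomorphism

open Pool.Agent.H812R2.PI Pool.Agent.Helper65.PF

theorem result {m : ℕ} (σ : Fin (m+2) → List (Fin (m+2))) (hM : PisotMat (inc σ)) (lam : ℝ)
    (hlam : 1 < lam) (hroot : ((inc σ).map (Int.cast : ℤ → ℂ)).charpoly.IsRoot (lam : ℂ))
    (φ : FreeGroup (Fin (m+2)) ≃* FreeGroup (Fin (m+2)))
    (hφ : ∀ a, φ (FreeGroup.of a) = ((σ a).map FreeGroup.of).prod)
    (N : ℕ) (hN : 1 ≤ N)
    (h : ∀ a, ((φ.symm^[N] (FreeGroup.of a)).norm : ℝ) ^ m < lam ^ N) :
    SemiConjToral σ := by
  refine semi_aut σ hM lam hlam hroot φ hφ N hN fun a => lt_of_le_of_lt ?_ (h a)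
  refine pow_le_pow_left₀ (Nat.cast_nonneg _) ?_ m
  exact_mod_cast sum_nrm_chn _

end Pool.Agent.Results.MP_e732b0_an.InverseAutomorphism
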