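import Pool.Agent.Helper65.PF.Mono

/-!
# The Pisot substitution conjecture for substitutions which respect an orientation

Let `R` be an orientation of the pairs of letters: for `a ≠ b` exactly one of `R a b`, `R b a` holds
(for example `R a b ↔ a < b`). `Up R u v` says that the word `v` is obtained from the word `u` by
replacing successively two adjacent letters `a b` with `R a b` by `b a`. The substitution `τ` is
monotone (`MonoS R τ`) if `τ(a) τ(b)` can be changed in this way into `τ(b) τ(a)` whenever `R a b`,
and antitone (`AntiS R τ`) if `τ(b) τ(a)` can be changed in this way into `τ(a) τ(b)` whenever
`R a b`.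

Every unimodular irreducible Pisot substitution which is a composition of monotone and antitone
substitutions satisfies the Pisot substitution conjecture, in every dimension. There is no
condition on the size of the entries of the matrix, on the first or last letters of the images, and
the factors need not be invertible, Pisot, primitive or irreducible.

For the natural order of the letters the class contains, in every dimension, the substitutions
`j ↦ i j` and `j ↦ j i` for all neighbours `i = j ± 1` (the other letters fixed) and the reversal
`j ↦ d - 1 - j`, hence all their compositions (second and third part). On two letters these generate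
the Sturmian morphisms.

`PisotMat`, `inc`, `compList`, `SemiConjToral` are those of the starting library
`Pool/Agent/H812R2/PI` (unimodular irreducible Pisot matrix, incidence matrix, composition,
conclusion of the conjecture).

Proof: the number of transpositions in the direction of `R` between two words is the difference of
their numbers of oriented pairs of positions, so `σ^N(a) σ^N(b)` is changed into `σ^N(b) σ^N(a)` by
exactly as many transpositions as the sum of the oriented minors of order two of the matrix of
`σ^N` in the columns `a` and `b`, and this is `o (lam ^ N)` by the Pisot property.
-/

set_option autoImplicit false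

namespace Pool.Agent.Results.MP_e732b0_an.OrientedSubstitutions

open Pool.Agent.H812R2.PI Pool.Agent.Helper65.PF

theorem result {m : ℕ} :
    (∀ R : Fin (m+1) → Fin (m+1) → Prop, (∀ a b, R a b → ¬ R b a) →
      (∀ a b, a ≠ b → R a b ∨ R b a) →
      ∀ l : List (Fin (m+1) → List (Fin (m+1))), (∀ τ ∈ l, MonoS R τ ∨ AntiS R τ) →
        PisotMat (inc (compList l)) → SemiConjToral (compList l)) ∧
    (∀ i j : Fin (m+1), ((i : ℕ) = j + 1 ∨ (j : ℕ) = i + 1) →
      MonoS (· < ·) (Function.update (fun a : Fin (m+1) => [a]) j [i, j]) ∧
      MonoS (· < ·) (Function.update (fun a : Fin (m+1) => [a]) j [j, i])) ∧
    AntiS (· < ·) (fun a : Fin (m+1) => [Fin.rev a]) :=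
  ⟨fun _ hR hR' _ hl hM => semi_mono hR hR' _ (mono_compList hl) hM,
    fun i j hij => ⟨monoS_elem i j hij _ (Or.inl rfl), monoS_elem i j hij _ (Or.inr rfl)⟩,
    antiS_rev⟩

end Pool.Agent.Results.MP_e732b0_an.OrientedSubstitutions
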